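import Pool.Agent.Lib.MP_f55379_nt.ZQ8

/-!
# Frame for simultaneous measures with an arbitrary constant, and some elementary lemmas
-/

namespace Pool.Agent.Lib.MP_93d8d2_nt

open Complex Pool.Agent.Lib.MP_f55379_nt

theorem zpow_eq_one_of_norm_ne {z : ℂ} (h0 : z ≠ 0) (hz : ‖z‖ ≠ 1) {n : ℤ} (h : z ^ n = 1) :
    n = 0 := by
  rcases lt_or_gt_of_ne hz with h1 | h1
  · have h2 : 1 < ‖z⁻¹‖ := by
      rw [norm_inv]
      exact (one_lt_inv₀ (norm_pos_iff.mpr h0)).mpr h1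
    refine zpow_eq_one_of_norm h2 (n := n) ?_
    rw [inv_zpow, h, inv_one]
  · exact zpow_eq_one_of_norm h1 h

theorem ind_of_norm_ne {A0 B0 B1 : ℂ} (h0 : A0 ≠ 0) (hA0 : ‖A0‖ ≠ 1) (h1 : B1 ≠ 0)
    (hB1 : ‖B1‖ ≠ 1) :
    ∀ (n : ℕ), n ≠ 0 → ∀ a b : ℤ, (A0 ^ a * B0 ^ b) ^ n = 1 →
      ((1 : ℂ) ^ a * B1 ^ b) ^ n = 1 → a = 0 ∧ b = 0 := by
  intro n hn a b e0 e1
  have hn' : (n : ℤ) ≠ 0 := by exact_mod_cast hn
  have hb : b = 0 := by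
    rw [one_zpow, one_mul, ← zpow_natCast, ← zpow_mul] at e1
    exact (mul_eq_zero.mp (zpow_eq_one_of_norm_ne h1 hB1 e1)).resolve_right hn'
  refine ⟨?_, hb⟩
  rw [hb, zpow_zero, mul_one, ← zpow_natCast, ← zpow_mul] at e0
  exact (mul_eq_zero.mp (zpow_eq_one_of_norm_ne h0 hA0 e0)).resolve_right hn'

/-- The common frame with an arbitrary constant `A` in place of `1000`. -/
theorem measure_frame_const (D : ℕ) {κ : ℝ} (hκ : 10 < κ) (t : Fin 3 → ℝ) (A : ℝ) (hA : 1 ≤ A)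
    (key : ∀ r kk : ℕ, 1 ≤ kk → ∃ n₀ : ℕ, ∀ n : ℕ, n₀ ≤ n → ∀ (K : Type) [Field K] [NumberField K],
      Module.finrank ℚ K ≤ r → ∀ (φ : K →+* ℂ) (d : ℕ), 1 ≤ d →
      (d : ℝ) ≤ Real.exp ((n : ℝ) ^ kk) → ∀ M : ℝ, 1 ≤ M → M ≤ Real.exp ((n : ℝ) ^ kk) →
      ∀ (H : ℝ), 1 ≤ H → 2 * (1 + H) ^ 2 ≤ M → ∀ (x : Fin 3 → K) (ι : K),
      (∀ i, Sz d (x i) 1 (1 + H)) → Sz d ι 0 1 → φ ι = I →
      (∀ i, A * ‖((t i : ℝ) : ℂ) - φ (x i)‖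
        ≤ Real.exp (-((4 * r + 5) * (n : ℝ) ^ (10 * kk + 54)))) → False) :
    ∃ C : ℝ, ∀ H : ℝ, 2 ≤ H → ∀ ξ : Fin 3 → ℂ, (∀ i, HtLe D H (ξ i)) →
      Real.exp (-(C * Real.log H ^ κ)) ≤
        max (max ‖((t 0 : ℝ) : ℂ) - ξ 0‖ ‖((t 1 : ℝ) : ℂ) - ξ 1‖) ‖((t 2 : ℝ) : ℂ) - ξ 2‖ := by
  obtain ⟨kk, hkk1, hkk⟩ : ∃ kk : ℕ, 1 ≤ kk ∧ 10 + 54 / (kk : ℝ) ≤ κ := by
    obtain ⟨kk, hkk⟩ := exists_nat_gt (54 / (κ - 10))
    have hκ0 : 0 < κ - 10 := by linarith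
    have h0 : 0 < 54 / (κ - 10) := by positivity
    have hkk0 : (0 : ℝ) < kk := h0.trans hkk
    refine ⟨kk, by exact_mod_cast hkk0, ?_⟩
    have h1 : 54 / (kk : ℝ) ≤ κ - 10 := by
      rw [div_lt_iff₀ hκ0] at hkk
      rw [div_le_iff₀ hkk0]
      linarith
    linarith
  obtain ⟨n₀, hn₀⟩ := key (2 * D ^ 3) kk hkk1
  obtain ⟨C, hC⟩ := exists_param n₀ kk hkk1 (R := 4 * ((2 * D ^ 3 : ℕ) : ℝ) + 5) (by positivity) hkk
  have hl2 : 0 < Real.log 2 := Real.log_pos (by norm_num)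
  have hlA : 0 ≤ Real.log A := Real.log_nonneg hA
  refine ⟨C + Real.log A * (Real.log 2 ^ κ)⁻¹, fun H hH ξ hξ => ?_⟩
  by_contra hcon
  push Not at hcon
  obtain ⟨n, hn, hlog, hR⟩ := hC H hH
  obtain ⟨K, _, _, φ, x, ι, d, hfr, hx, hι, hd1, hd, hsz, hszι⟩ := exists_field D H ξ hξ
  have hH0 : 0 < H := by linarith
  have hlogH : 0 ≤ Real.log H := Real.log_nonneg (by linarith)
  have hH5 : H ^ 5 ≤ Real.exp ((n : ℝ) ^ kk) := by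
    rw [← Real.log_le_iff_le_exp (by positivity), Real.log_pow]
    exact_mod_cast hlog
  have hd' : (d : ℝ) ≤ Real.exp ((n : ℝ) ^ kk) := by
    refine hd.trans (le_trans ?_ hH5)
    exact pow_le_pow_right₀ (by linarith) (by norm_num)
  have hM : 2 * (1 + H) ^ 2 ≤ Real.exp ((n : ℝ) ^ kk) := by
    refine le_trans ?_ hH5
    have h3 : 8 ≤ H ^ 3 := by
      calc (8 : ℝ) = 2 ^ 3 := by norm_num
        _ ≤ H ^ 3 := by gcongr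
    have h2 : 1 + H ≤ 3 / 2 * H := by linarith
    calc 2 * (1 + H) ^ 2 ≤ 2 * (3 / 2 * H) ^ 2 := by gcongr
      _ ≤ 8 * H ^ 2 := by nlinarith [sq_nonneg H]
      _ ≤ H ^ 3 * H ^ 2 := by gcongr
      _ = H ^ 5 := by ring
  have hE : ∀ i, ‖((t i : ℝ) : ℂ) - φ (x i)‖ ≤
      Real.exp (-((C + Real.log A * (Real.log 2 ^ κ)⁻¹) * Real.log H ^ κ)) := by
    intro i
    rw [hx i]
    rw [max_lt_iff, max_lt_iff] at hcon
    obtain ⟨⟨c0, c1⟩, c2⟩ := hcon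
    fin_cases i
    · exact c0.le
    · exact c1.le
    · exact c2.le
  refine hn₀ n hn K hfr φ d hd1 hd' (2 * (1 + H) ^ 2) (by nlinarith) hM H (by linarith) le_rfl x ι
    hsz hszι hι fun i => ?_
  have h7 : (1 : ℝ) ≤ (Real.log 2 ^ κ)⁻¹ * Real.log H ^ κ := by
    rw [inv_mul_eq_div, le_div_iff₀ (by positivity), one_mul]
    exact Real.rpow_le_rpow hl2.le (Real.log_le_log (by norm_num) hH) (by linarith)
  have h1 : Real.exp (-((C + Real.log A * (Real.log 2 ^ κ)⁻¹) * Real.log H ^ κ))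
      ≤ Real.exp (-Real.log A) *
        Real.exp (-((4 * ((2 * D ^ 3 : ℕ) : ℝ) + 5) * (n : ℝ) ^ (10 * kk + 54))) := by
    rw [← Real.exp_add]
    apply Real.exp_le_exp.mpr
    have h8 : Real.log A * 1 ≤ Real.log A * ((Real.log 2 ^ κ)⁻¹ * Real.log H ^ κ) :=
      mul_le_mul_of_nonneg_left h7 hlA
    linarith
  have hA0 : 0 < A := by linarith
  calc A * ‖((t i : ℝ) : ℂ) - φ (x i)‖
      ≤ A * (Real.exp (-Real.log A)
        * Real.exp (-((4 * ((2 * D ^ 3 : ℕ) : ℝ) + 5) * (n : ℝ) ^ (10 * kk + 54)))) :=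
        mul_le_mul_of_nonneg_left ((hE i).trans h1) hA0.le
    _ = (A * Real.exp (-Real.log A))
        * Real.exp (-((4 * ((2 * D ^ 3 : ℕ) : ℝ) + 5) * (n : ℝ) ^ (10 * kk + 54))) := by ring
    _ = _ := by
        rw [Real.exp_neg, Real.exp_log hA0, mul_inv_cancel₀ hA0.ne', one_mul]

/-- A complex number close to a real number of absolute value different from `1` and `0` has the
same property. -/
theorem norm_ne_one_of_close {x : ℝ} {ξ : ℂ} (h : ‖(x : ℂ) - ξ‖ < |(|x| - 1)|) : ‖ξ‖ ≠ 1 := by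
  intro h1
  have h2 : |‖(x : ℂ)‖ - ‖ξ‖| ≤ ‖(x : ℂ) - ξ‖ := abs_norm_sub_norm_le _ _
  rw [h1, Complex.norm_real, Real.norm_eq_abs] at h2
  linarith

theorem ne_zero_of_close {x : ℝ} {ξ : ℂ} (h : ‖(x : ℂ) - ξ‖ < |x|) : ξ ≠ 0 := by
  rintro rfl
  rw [sub_zero, Complex.norm_real, Real.norm_eq_abs] at h
  exact lt_irrefl _ h

/-- For large `n` the quality of approximation is better than any given bound. -/
theorem eventually_small (r kk : ℕ) {μ : ℝ} (hμ : 0 < μ) :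
    ∃ n₀ : ℕ, ∀ n : ℕ, n₀ ≤ n →
      Real.exp (-((4 * (r : ℝ) + 5) * (n : ℝ) ^ (10 * kk + 54))) ≤ μ := by
  obtain ⟨n₀, hn₀⟩ := exists_nat_ge (-Real.log μ)
  refine ⟨n₀ + 1, fun n hn => ?_⟩
  rw [← Real.le_log_iff_exp_le hμ]
  have h1 : (1 : ℝ) ≤ n := by
    have : 1 ≤ n := by omega
    exact_mod_cast this
  have h2 : (n₀ : ℝ) ≤ n := by
    have : n₀ ≤ n := by omega
    exact_mod_cast this
  have h3 : (n : ℝ) ≤ (n : ℝ) ^ (10 * kk + 54) := le_self_pow₀ h1 (by omega)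
  have h4 : (1 : ℝ) ≤ 4 * (r : ℝ) + 5 := by
    have : (0 : ℝ) ≤ r := Nat.cast_nonneg r
    linarith
  have h5 : (n : ℝ) ≤ (4 * (r : ℝ) + 5) * (n : ℝ) ^ (10 * kk + 54) := by
    calc (n : ℝ) = 1 * (n : ℝ) := (one_mul _).symm
      _ ≤ (4 * (r : ℝ) + 5) * (n : ℝ) ^ (10 * kk + 54) := by gcongr
  linarith

theorem good_close (a : ℝ) (h0 : 0 < a) (h1 : a ≠ 1) :
    ∃ μ : ℝ, 0 < μ ∧ ∀ ξ : ℂ, ‖(a : ℂ) - ξ‖ < μ → ξ ≠ 0 ∧ ‖ξ‖ ≠ 1 := by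
  refine ⟨min |a| (|(|a| - 1)|), lt_min (abs_pos.mpr h0.ne') ?_, fun ξ hξ => ?_⟩
  · rw [abs_pos, abs_of_pos h0]
    intro h; apply h1; linarith
  · rw [lt_min_iff] at hξ
    exact ⟨ne_zero_of_close hξ.1, norm_ne_one_of_close hξ.2⟩

end Pool.Agent.Lib.MP_93d8d2_nt
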