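import Pool.Agent.Lib.MP_93d8d2_nt.Frame

/-!
# A frame with denominators, and the four number theorem

For nonzero reals `L`, `R` and rationals `q > 0`, `a ≠ 0` the four numbers
`e ^ L`, `e ^ (R L)`, `(q e ^ a) ^ R`, `π R` cannot all be very close to algebraic numbers of
bounded degree and height.
-/

namespace Pool.Agent.Lib.MP_93d8d2_nt

open Complex Pool.Agent.Lib.MP_f55379_nt

theorem sz_dmul {K : Type*} [Field K] [NumberField K] {d : ℕ} {x : K} {D : ℕ} {H : ℝ} (c : ℕ)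
    (h : Sz d x D H) : Sz (c * d) x D H := by
  refine ⟨?_, h.2⟩
  have : ((c * d : ℕ) : K) ^ D * x = (c : K) ^ D * ((d : K) ^ D * x) := by
    push_cast; ring
  rw [this]
  exact ((Sz.isInt_natCast c).pow D).mul h.1

theorem sz_rat {K : Type*} [Field K] [NumberField K] {d : ℕ} (q : ℚ) (h : q.den ∣ d) {M : ℝ}
    (hM : |(q : ℝ)| ≤ M) : Sz d (q : K) 1 M := by
  refine ⟨?_, fun σ => ?_⟩
  · obtain ⟨e, rfl⟩ := h
    have h1 : (q.den : K) * (q : K) = (q.num : K) := by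
      have h2 : (q.den : ℚ) * q = q.num := by rw [mul_comm]; exact Rat.mul_den_eq_num q
      exact_mod_cast congrArg (Rat.cast : ℚ → K) h2
    have : ((q.den * e : ℕ) : K) ^ 1 * (q : K) = (e : K) * (q.num : K) := by
      rw [← h1]; push_cast; ring
    rw [this]
    exact (Sz.isInt_natCast e).mul (Sz.isInt_intCast q.num)
  · rw [map_ratCast, Complex.norm_ratCast]; exact hM

/-- The common frame with an arbitrary constant `A` and a common denominator `c`. -/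
theorem measure_frame_den (D : ℕ) {κ : ℝ} (hκ : 10 < κ) (t : Fin 3 → ℝ) (A : ℝ) (hA : 1 ≤ A)
    (c : ℕ) (hc : 1 ≤ c)
    (key : ∀ r kk : ℕ, 1 ≤ kk → ∃ n₀ : ℕ, ∀ n : ℕ, n₀ ≤ n → ∀ (K : Type) [Field K] [NumberField K],
      Module.finrank ℚ K ≤ r → ∀ (φ : K →+* ℂ) (d : ℕ), 1 ≤ d → c ∣ d →
      (d : ℝ) ≤ Real.exp ((n : ℝ) ^ kk) → ∀ M : ℝ, 1 ≤ M → M ≤ Real.exp ((n : ℝ) ^ kk) →
      ∀ (H : ℝ), 1 ≤ H → c * (2 * (1 + H) ^ 2) ≤ M → ∀ (x : Fin 3 → K) (ι : K),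
      (∀ i, Sz d (x i) 1 (1 + H)) → Sz d ι 0 1 → φ ι = I →
      (∀ i, A * ‖((t i : ℝ) : ℂ) - φ (x i)‖
        ≤ Real.exp (-((4 * r + 5) * (n : ℝ) ^ (10 * kk + 54)))) → False) :
    ∃ C : ℝ, ∀ H : ℝ, 2 ≤ H → ∀ ξ : Fin 3 → ℂ, (∀ i, HtLe D H (ξ i)) →
      Real.exp (-(C * Real.log H ^ κ)) ≤
        max (max ‖((t 0 : ℝ) : ℂ) - ξ 0‖ ‖((t 1 : ℝ) : ℂ) - ξ 1‖) ‖((t 2 : ℝ) : ℂ) - ξ 2‖ := by
  obtain ⟨kk, hkk1, hkk⟩ : ∃ kk : ℕ, 1 ≤ kk ∧ 10 + 54 / (kk : ℝ) ≤ κ := by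
    obtain ⟨kk, hkk⟩ := exists_nat_gt (54 / (κ - 10))
    have hκ0 : 0 < κ - 10 := by linarith
    have h0 : 0 < 54 / (κ - 10) := by positivity
    have hkk0 : (0 : ℝ) < kk := h0.trans hkk
    refine ⟨kk, by exact_mod_cast hkk0, ?_⟩
    have h1 : 54 / (kk : ℝ) ≤ κ - 10 := by
      rw [div_lt_iff₀ hκ0] at hkk
      rw [div_le_iff₀ hkk0]
      linarith
    linarith
  obtain ⟨n₀, hn₀⟩ := key (2 * D ^ 3) kk hkk1
  obtain ⟨C, hC⟩ := exists_param (max n₀ (12 * c)) kk hkk1 (R := 4 * ((2 * D ^ 3 : ℕ) : ℝ) + 5)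
    (by positivity) hkk
  have hl2 : 0 < Real.log 2 := Real.log_pos (by norm_num)
  have hlA : 0 ≤ Real.log A := Real.log_nonneg hA
  refine ⟨C + Real.log A * (Real.log 2 ^ κ)⁻¹, fun H hH ξ hξ => ?_⟩
  by_contra hcon
  push Not at hcon
  obtain ⟨n, hn, hlog, hR⟩ := hC H hH
  obtain ⟨K, _, _, φ, x, ι, d, hfr, hx, hι, hd1, hd, hsz, hszι⟩ := exists_field D H ξ hξ
  have hH0 : 0 < H := by linarith
  have hlogH : 0 ≤ Real.log H := Real.log_nonneg (by linarith)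
  have hH5 : H ^ 5 ≤ Real.exp ((n : ℝ) ^ kk) := by
    rw [← Real.log_le_iff_le_exp (by positivity), Real.log_pow]
    exact_mod_cast hlog
  have hn12 : 12 * c ≤ n := (le_max_right _ _).trans hn
  have hc0 : (1 : ℝ) ≤ c := by exact_mod_cast hc
  have hbig : 3 * (c : ℝ) * H ^ 3 ≤ Real.exp ((n : ℝ) ^ kk) := by
    rcases le_or_gt (3 * (c : ℝ)) (H ^ 2) with h1 | h1
    · refine le_trans ?_ hH5
      calc 3 * (c : ℝ) * H ^ 3 ≤ H ^ 2 * H ^ 3 := by gcongr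
        _ = H ^ 5 := by ring
    · have h2 : H ≤ 3 * (c : ℝ) := by nlinarith
      have h3 : (12 * (c : ℝ)) ≤ n := by exact_mod_cast hn12
      have h4 : (n : ℝ) ≤ (n : ℝ) ^ kk := le_self_pow₀ (by linarith) (by omega)
      calc 3 * (c : ℝ) * H ^ 3 ≤ 3 * (c : ℝ) * (3 * (c : ℝ)) ^ 3 := by gcongr
        _ = (3 * (c : ℝ)) ^ 4 := by ring
        _ ≤ (Real.exp (3 * (c : ℝ))) ^ 4 := by
            gcongr
            have := Real.add_one_le_exp (3 * (c : ℝ))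
            linarith
        _ = Real.exp (12 * (c : ℝ)) := by
            rw [← Real.exp_nat_mul]; congr 1; push_cast; ring
        _ ≤ Real.exp ((n : ℝ) ^ kk) := Real.exp_le_exp.mpr (h3.trans h4)
  have hd' : ((c * d : ℕ) : ℝ) ≤ Real.exp ((n : ℝ) ^ kk) := by
    refine le_trans ?_ hbig
    push_cast
    calc (c : ℝ) * d ≤ c * H ^ 3 := by gcongr
      _ ≤ 3 * (c : ℝ) * H ^ 3 := by nlinarith [pow_pos hH0 3]
  have hM : c * (2 * (1 + H) ^ 2) ≤ Real.exp ((n : ℝ) ^ kk) := by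
    refine le_trans ?_ hbig
    have h2 : 1 + H ≤ 3 / 2 * H := by linarith
    calc (c : ℝ) * (2 * (1 + H) ^ 2) ≤ c * (2 * (3 / 2 * H) ^ 2) := by gcongr
      _ = c * (9 / 2 * H ^ 2) := by ring
      _ ≤ c * (9 / 4 * H * H ^ 2) := by gcongr; nlinarith
      _ ≤ c * (3 * H * H ^ 2) := by gcongr; norm_num
      _ = 3 * (c : ℝ) * H ^ 3 := by ring
  have hE : ∀ i, ‖((t i : ℝ) : ℂ) - φ (x i)‖ ≤
      Real.exp (-((C + Real.log A * (Real.log 2 ^ κ)⁻¹) * Real.log H ^ κ)) := by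
    intro i
    rw [hx i]
    rw [max_lt_iff, max_lt_iff] at hcon
    obtain ⟨⟨c0, c1⟩, c2⟩ := hcon
    fin_cases i
    · exact c0.le
    · exact c1.le
    · exact c2.le
  have hM1 : (1 : ℝ) ≤ c * (2 * (1 + H) ^ 2) := by
    have : (1 : ℝ) ≤ 2 * (1 + H) ^ 2 := by nlinarith
    calc (1 : ℝ) = 1 * 1 := by ring
      _ ≤ c * (2 * (1 + H) ^ 2) := by gcongr
  refine hn₀ n ((le_max_left _ _).trans hn) K hfr φ (c * d) (Nat.mul_pos hc hd1)
    (Dvd.intro d rfl) hd' (c * (2 * (1 + H) ^ 2)) hM1 hM H (by linarith) le_rfl x ι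
    (fun i => sz_dmul c (hsz i)) (sz_dmul c hszι) hι fun i => ?_
  have h7 : (1 : ℝ) ≤ (Real.log 2 ^ κ)⁻¹ * Real.log H ^ κ := by
    rw [inv_mul_eq_div, le_div_iff₀ (by positivity), one_mul]
    exact Real.rpow_le_rpow hl2.le (Real.log_le_log (by norm_num) hH) (by linarith)
  have h1 : Real.exp (-((C + Real.log A * (Real.log 2 ^ κ)⁻¹) * Real.log H ^ κ))
      ≤ Real.exp (-Real.log A) *
        Real.exp (-((4 * ((2 * D ^ 3 : ℕ) : ℝ) + 5) * (n : ℝ) ^ (10 * kk + 54))) := by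
    rw [← Real.exp_add]
    apply Real.exp_le_exp.mpr
    have h8 : Real.log A * 1 ≤ Real.log A * ((Real.log 2 ^ κ)⁻¹ * Real.log H ^ κ) :=
      mul_le_mul_of_nonneg_left h7 hlA
    linarith
  have hA0 : 0 < A := by linarith
  calc A * ‖((t i : ℝ) : ℂ) - φ (x i)‖
      ≤ A * (Real.exp (-Real.log A)
        * Real.exp (-((4 * ((2 * D ^ 3 : ℕ) : ℝ) + 5) * (n : ℝ) ^ (10 * kk + 54)))) :=
        mul_le_mul_of_nonneg_left ((hE i).trans h1) hA0.le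
    _ = (A * Real.exp (-Real.log A))
        * Real.exp (-((4 * ((2 * D ^ 3 : ℕ) : ℝ) + 5) * (n : ℝ) ^ (10 * kk + 54))) := by ring
    _ = _ := by
        rw [Real.exp_neg, Real.exp_log hA0, mul_inv_cancel₀ hA0.ne', one_mul]

/-- Numbers close to `x`, `y`, `w` keep the determinant of logarithms nonzero. -/
theorem det_close (x y w l : ℝ) (hx : 0 < x) (hx1 : x ≠ 1) (hy : 0 < y) (hy1 : y ≠ 1) (hw : 0 < w)
    (hdet : Real.log x * Real.log w - Real.log y * l ≠ 0) :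
    ∃ μ : ℝ, 0 < μ ∧ ∀ A B W : ℂ, ‖(x : ℂ) - A‖ < μ → ‖(y : ℂ) - B‖ < μ → ‖(w : ℂ) - W‖ < μ →
      A ≠ 0 ∧ ‖A‖ ≠ 1 ∧ B ≠ 0 ∧ ‖B‖ ≠ 1 ∧ W ≠ 0 ∧
        Real.log ‖A‖ * Real.log ‖W‖ - Real.log ‖B‖ * l ≠ 0 := by
  obtain ⟨μ1, hμ1, h1⟩ := good_close x hx hx1
  obtain ⟨μ2, hμ2, h2⟩ := good_close y hy hy1
  let f : ℂ × ℂ × ℂ → ℝ := fun p => Real.log ‖p.1‖ * Real.log ‖p.2.2‖ - Real.log ‖p.2.1‖ * l
  have hf : ContinuousAt f ((x : ℂ), (y : ℂ), (w : ℂ)) := by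
    have e1 : ContinuousAt (fun p : ℂ × ℂ × ℂ => Real.log ‖p.1‖) ((x : ℂ), (y : ℂ), (w : ℂ)) := by
      refine ContinuousAt.log (by fun_prop) ?_
      simpa using hx.ne'
    have e2 : ContinuousAt (fun p : ℂ × ℂ × ℂ => Real.log ‖p.2.1‖) ((x : ℂ), (y : ℂ), (w : ℂ)) := by
      refine ContinuousAt.log (by fun_prop) ?_
      simpa using hy.ne'
    have e3 : ContinuousAt (fun p : ℂ × ℂ × ℂ => Real.log ‖p.2.2‖) ((x : ℂ), (y : ℂ), (w : ℂ)) := by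
      refine ContinuousAt.log (by fun_prop) ?_
      simpa using hw.ne'
    exact (e1.mul e3).sub (e2.mul continuousAt_const)
  have hf0 : f ((x : ℂ), (y : ℂ), (w : ℂ)) ≠ 0 := by
    have : f ((x : ℂ), (y : ℂ), (w : ℂ)) = Real.log x * Real.log w - Real.log y * l := by
      simp only [f]
      rw [Complex.norm_real, Complex.norm_real, Complex.norm_real, Real.norm_eq_abs,
        Real.norm_eq_abs, Real.norm_eq_abs, abs_of_pos hx, abs_of_pos hy, abs_of_pos hw]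
    rw [this]; exact hdet
  obtain ⟨μ3, hμ3, h3⟩ := Metric.eventually_nhds_iff.mp (hf.eventually_ne hf0)
  refine ⟨min (min μ1 μ2) (min μ3 |w|), by
    have := abs_pos.mpr hw.ne'
    exact lt_min (lt_min hμ1 hμ2) (lt_min hμ3 this), fun A B W hA hB hW => ?_⟩
  rw [lt_min_iff, lt_min_iff, lt_min_iff] at hA hB hW
  obtain ⟨a1, a2⟩ := h1 A hA.1.1
  obtain ⟨b1, b2⟩ := h2 B hB.1.2
  have w1 : W ≠ 0 := ne_zero_of_close hW.2.2
  have hd : dist (A, B, W) ((x : ℂ), (y : ℂ), (w : ℂ)) < μ3 := by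
    rw [Prod.dist_eq, Prod.dist_eq, dist_eq_norm, dist_eq_norm, dist_eq_norm, norm_sub_rev A,
      norm_sub_rev B, norm_sub_rev W]
    exact max_lt hA.2.1 (max_lt hB.2.1 hW.2.1)
  exact ⟨a1, a2, b1, b2, w1, h3 hd⟩

theorem ind_of_det {A0 A1 B0 B1 : ℂ}
    (h : Real.log ‖A0‖ * Real.log ‖B1‖ - Real.log ‖B0‖ * Real.log ‖A1‖ ≠ 0) (hA0 : A0 ≠ 0)
    (hA1 : A1 ≠ 0) (hB0 : B0 ≠ 0) (hB1 : B1 ≠ 0) :
    ∀ (n : ℕ), n ≠ 0 → ∀ a b : ℤ, (A0 ^ a * B0 ^ b) ^ n = 1 →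
      (A1 ^ a * B1 ^ b) ^ n = 1 → a = 0 ∧ b = 0 := by
  intro n hn a b e0 e1
  have key : ∀ x y : ℂ, x ≠ 0 → y ≠ 0 → (x ^ a * y ^ b) ^ n = 1 →
      (a : ℝ) * Real.log ‖x‖ + b * Real.log ‖y‖ = 0 := by
    intro x y hx hy he
    have h1 : Real.log ‖(x ^ a * y ^ b) ^ n‖ = 0 := by rw [he]; simp
    rw [norm_pow, norm_mul, norm_zpow, norm_zpow, Real.log_pow,
      Real.log_mul (by positivity) (by positivity), Real.log_zpow, Real.log_zpow] at h1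
    rcases mul_eq_zero.mp h1 with h2 | h2
    · exact absurd (by exact_mod_cast h2) hn
    · exact h2
  have k0 := key A0 B0 hA0 hB0 e0
  have k1 := key A1 B1 hA1 hB1 e1
  have ha : (a : ℝ) * (Real.log ‖A0‖ * Real.log ‖B1‖ - Real.log ‖B0‖ * Real.log ‖A1‖) = 0 := by
    linear_combination Real.log ‖B1‖ * k0 - Real.log ‖B0‖ * k1
  have hb : (b : ℝ) * (Real.log ‖A0‖ * Real.log ‖B1‖ - Real.log ‖B0‖ * Real.log ‖A1‖) = 0 := by
    linear_combination Real.log ‖A0‖ * k1 - Real.log ‖A1‖ * k0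
  have ha' := (mul_eq_zero.mp ha).resolve_right h
  have hb' := (mul_eq_zero.mp hb).resolve_right h
  exact ⟨by exact_mod_cast ha', by exact_mod_cast hb'⟩

/-- The four number theorem: `e ^ L`, `e ^ (R L)`, `(q e ^ a) ^ R`, `π R`. -/
theorem four_core (L R : ℝ) (hL : L ≠ 0) (hR : R ≠ 0) (q a : ℚ) (hq : 0 < q) (ha : a ≠ 0)
    (r kk : ℕ) :
    ∃ n₀ : ℕ, ∀ n : ℕ, n₀ ≤ n → ∀ (K : Type) [Field K] [NumberField K],
      Module.finrank ℚ K ≤ r → ∀ (φ : K →+* ℂ) (d : ℕ), 1 ≤ d →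
      (d : ℝ) ≤ Real.exp ((n : ℝ) ^ kk) → ∀ M : ℝ, 1 ≤ M → M ≤ Real.exp ((n : ℝ) ^ kk) →
      q.den ∣ d → a.den ∣ d → |(q : ℝ)| ≤ M → |(a : ℝ)| ≤ M →
      ∀ (a0 b0 b1 k2 ι : K), Sz d a0 2 M → Sz d b0 2 M → Sz d b1 2 M → Sz d k2 2 M →
      Sz d ι 0 1 → φ ι = I →
      ‖((Real.exp L : ℝ) : ℂ) - φ a0‖ ≤ Real.exp (-((4 * r + 5) * (n : ℝ) ^ (10 * kk + 54))) →
      ‖((Real.exp (R * L) : ℝ) : ℂ) - φ b0‖ ≤
        Real.exp (-((4 * r + 5) * (n : ℝ) ^ (10 * kk + 54))) →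
      ‖((((q : ℝ) * Real.exp a) ^ R : ℝ) : ℂ) - φ b1‖ ≤
        Real.exp (-((4 * r + 5) * (n : ℝ) ^ (10 * kk + 54))) →
      ‖((Real.pi * R : ℝ) : ℂ) - φ k2‖ ≤
        Real.exp (-((4 * r + 5) * (n : ℝ) ^ (10 * kk + 54))) → False := by
  have hqR : (0 : ℝ) < q := by exact_mod_cast hq
  have haR : (a : ℝ) ≠ 0 := by exact_mod_cast ha
  have hpi : 0 < Real.pi := Real.pi_pos
  have hqe : (0 : ℝ) < (q : ℝ) * Real.exp a := mul_pos hqR (Real.exp_pos _)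
  have hlogqe : Real.log ((q : ℝ) * Real.exp a) = Real.log q + a := by
    rw [Real.log_mul hqR.ne' (Real.exp_pos _).ne', Real.log_exp]
  have hB1 : ((q : ℝ) * Real.exp a) ^ R = Real.exp (R * (Real.log q + a)) := by
    rw [Real.rpow_def_of_pos hqe, hlogqe, mul_comm]
  have hB1pos : 0 < ((q : ℝ) * Real.exp a) ^ R := Real.rpow_pos_of_pos hqe _
  set W : ℝ := ((q : ℝ) * Real.exp a) ^ R with hW
  obtain ⟨n₀, hn₀⟩ := six_approx r kk (M₀ := 2) one_le_two (R : ℂ) (-(a : ℂ))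
    ((Real.pi * R : ℝ) : ℂ) 1 0 (-(2 * I)) ((Real.exp L : ℝ) : ℂ) (q : ℂ)
    ((Real.exp (R * L) : ℝ) : ℂ) (W : ℂ)
    ![(L : ℂ), ((Real.log q + a : ℝ) : ℂ), 2 * Real.pi * I]
    (by
      change Complex.exp (L : ℂ) = ((Real.exp L : ℝ) : ℂ)
      rw [← Complex.ofReal_exp])
    (by
      change Complex.exp (((Real.log q + a : ℝ) : ℂ) + -(a : ℂ) * 1) = (q : ℂ)
      have h1 : ((Real.log q + a : ℝ) : ℂ) + -(a : ℂ) * 1 = ((Real.log q : ℝ) : ℂ) := by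
        push_cast; ring
      rw [h1, ← Complex.ofReal_exp, Real.exp_log hqR, Complex.ofReal_ratCast])
    Complex.exp_two_pi_mul_I
    (by
      change Complex.exp ((R : ℂ) * (L : ℂ) + _ * 0) = ((Real.exp (R * L) : ℝ) : ℂ)
      rw [mul_zero, add_zero, ← Complex.ofReal_mul, ← Complex.ofReal_exp])
    (by
      change Complex.exp ((R : ℂ) * ((Real.log q + a : ℝ) : ℂ)) = (W : ℂ)
      rw [← Complex.ofReal_mul, ← Complex.ofReal_exp, ← hB1])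
    (by
      change Complex.exp ((R : ℂ) * (2 * Real.pi * I) + ((Real.pi * R : ℝ) : ℂ) * -(2 * I)) = 1
      have : (R : ℂ) * (2 * Real.pi * I) + ((Real.pi * R : ℝ) : ℂ) * -(2 * I) = 0 := by
        push_cast; ring
      rw [this, Complex.exp_zero])
  have hdet : Real.log (Real.exp L) * Real.log W - Real.log (Real.exp (R * L)) * Real.log q ≠ 0 := by
    rw [hB1, Real.log_exp, Real.log_exp, Real.log_exp]
    have : L * (R * (Real.log q + a)) - R * L * Real.log q = L * R * a := by ring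
    rw [this]
    exact mul_ne_zero (mul_ne_zero hL hR) haR
  obtain ⟨μ, hμ, hg⟩ := det_close (Real.exp L) (Real.exp (R * L)) W (Real.log q) (Real.exp_pos _)
    (fun h => hL ((Real.exp_eq_one_iff L).mp h)) (Real.exp_pos _)
    (fun h => mul_ne_zero hR hL ((Real.exp_eq_one_iff _).mp h)) hB1pos hdet
  have hμ2 : 0 < |Real.pi * R| := abs_pos.mpr (mul_ne_zero hpi.ne' hR)
  have hmin : 0 < min μ |Real.pi * R| / 2 := by
    have := lt_min hμ hμ2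
    linarith
  obtain ⟨n₁, hn₁⟩ := eventually_small r kk hmin
  refine ⟨max n₀ n₁, ?_⟩
  intro n hn K _ _ hfr φ d hd1 hd M hM1 hM hqd had hqM haM a0 b0 b1 k2 ι sa0 sb0 sb1 sk2 hι hφι
    c0 c1 c2 c3
  have hE1 := hn₁ n ((le_max_right _ _).trans hn)
  have hE2 : Real.exp (-((4 * (r : ℝ) + 5) * (n : ℝ) ^ (10 * kk + 54))) < min μ |Real.pi * R| := by
    linarith
  rw [lt_min_iff] at hE2
  obtain ⟨g1, g2, g3, g4, g5, g6⟩ := hg (φ a0) (φ b0) (φ b1) (c0.trans_lt hE2.1)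
    (c1.trans_lt hE2.1) (c2.trans_lt hE2.1)
  have g7 : φ k2 ≠ 0 := ne_zero_of_close (x := Real.pi * R) (c3.trans_lt hE2.2)
  have hφq : φ ((q : ℚ) : K) = (q : ℂ) := map_ratCast φ q
  have hqC : (q : ℂ) ≠ 0 := by
    have : q ≠ 0 := hq.ne'
    exact_mod_cast this
  have haC : (a : ℂ) ≠ 0 := by exact_mod_cast ha
  let Λ : Pool.Agent.Lib.MP_f55379_nt.Lat :=
    { α0 := φ a0
      α1 := (q : ℂ)
      β0 := φ b0
      β1 := φ b1
      ε := 1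
      δ := 0
      v := -(2 * I)
      κ₁ := -(a : ℂ)
      κ₂ := φ k2
      hα0 := g1
      hα1 := hqC
      hβ0 := g3
      hβ1 := g5
      hε := one_ne_zero
      hv := by
        rw [neg_ne_zero]
        exact mul_ne_zero two_ne_zero I_ne_zero
      hκ₁ := neg_ne_zero.mpr haC
      hκ₂ := g7
      rα0 := fun n h => zpow_eq_one_of_norm_ne g1 g2 h
      rβ0 := fun n h => zpow_eq_one_of_norm_ne g3 g4 h
      ind := ind_of_det (by
        rw [Complex.norm_ratCast, abs_of_pos hqR]; exact g6) g1 hqC g3 g5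
      sh := by
        intro m0 m2 h
        rw [zero_mul, zero_add, mul_eq_zero, neg_eq_zero] at h
        rcases h with h | h
        · exact absurd h (mul_ne_zero two_ne_zero I_ne_zero)
        · exact_mod_cast h }
  refine hn₀ n ((le_max_left _ _).trans hn) K hfr φ d hd1 hd M hM1 hM (-((a : ℚ) : K)) k2 1 0
    (-(2 * ι)) a0 ((q : ℚ) : K) b0 b1
    ((sz_rat a had haM).neg.mono (by norm_num) le_rfl) sk2
    (Sz.one.mono le_rfl one_le_two) (Sz.zero.mono le_rfl zero_le_two)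
    ((sz_two_mul hι).mono le_rfl (by norm_num)) sa0
    ((sz_rat q hqd hqM).mono (by norm_num) le_rfl) sb0 sb1
    (map_one φ) (map_zero φ) (by rw [map_neg, map_mul, hφι, map_ofNat]) ?_ c3 c0 ?_ c1 c2
    Λ rfl hφq.symm rfl rfl rfl rfl rfl ?_ rfl
  · rw [map_neg, map_ratCast, sub_self, norm_zero]; exact (Real.exp_pos _).le
  · rw [hφq, sub_self, norm_zero]; exact (Real.exp_pos _).le
  · rw [map_neg, map_ratCast]

end Pool.Agent.Lib.MP_93d8d2_nt
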