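import Pool.Agent.Lib.MP_93d8d2_nt.Frame

/-!
# The two simultaneous approximation measures for `√m ^ ρ`, `e ^ ρ`, `π ρ` and
`√m ^ ρ`, `e ^ ρ`, `π log m`
-/

namespace Pool.Agent.Lib.MP_93d8d2_nt

open Complex Pool.Agent.Lib.MP_f55379_nt

theorem sqrt_rpow_sq (m : ℕ) (hm : 2 ≤ m) (ρ : ℝ) :
    Real.sqrt m ^ ρ * Real.sqrt m ^ ρ = Real.exp (ρ * Real.log m) := by
  have h0 : (0 : ℝ) < m := by
    have : 0 < m := by omega
    exact_mod_cast this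
  rw [← Real.mul_rpow (Real.sqrt_nonneg _) (Real.sqrt_nonneg _), Real.mul_self_sqrt h0.le,
    Real.rpow_def_of_pos h0, mul_comm]

theorem sqrt_rpow_ne_one (m : ℕ) (hm : 2 ≤ m) (ρ : ℝ) (hρ : ρ ≠ 0) : Real.sqrt m ^ ρ ≠ 1 := by
  intro h
  have h1 := sqrt_rpow_sq m hm ρ
  rw [h, mul_one] at h1
  have h2 : ρ * Real.log m = 0 := by
    have := h1.symm
    rwa [Real.exp_eq_one_iff] at this
  have h3 : 0 < Real.log m := Real.log_pos (by
    have : 1 < m := by omega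
    exact_mod_cast this)
  rcases mul_eq_zero.mp h2 with h4 | h4
  · exact hρ h4
  · exact h3.ne' h4

theorem keyT (m : ℕ) (hm : 2 ≤ m) (ρ : ℝ) (hρ : ρ ≠ 0) (r kk : ℕ) (hkk : 1 ≤ kk) :
    ∃ n₀ : ℕ, ∀ n : ℕ, n₀ ≤ n → ∀ (K : Type) [Field K] [NumberField K],
      Module.finrank ℚ K ≤ r → ∀ (φ : K →+* ℂ) (d : ℕ), 1 ≤ d →
      (d : ℝ) ≤ Real.exp ((n : ℝ) ^ kk) → ∀ M : ℝ, 1 ≤ M → M ≤ Real.exp ((n : ℝ) ^ kk) →
      ∀ (H : ℝ), 1 ≤ H → 2 * (1 + H) ^ 2 ≤ M → ∀ (x : Fin 3 → K) (ι : K),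
      (∀ i, Sz d (x i) 1 (1 + H)) → Sz d ι 0 1 → φ ι = I →
      (∀ i, (2 * (Real.sqrt m ^ ρ + 1)) *
        ‖(((![Real.sqrt m ^ ρ, Real.exp ρ, Real.pi * ρ] : Fin 3 → ℝ) i : ℝ) : ℂ) - φ (x i)‖
        ≤ Real.exp (-((4 * r + 5) * (n : ℝ) ^ (10 * kk + 54)))) → False := by
  have hm1 : (1 : ℝ) < m := by
    have : 1 < m := by omega
    exact_mod_cast this
  have hm0 : (0 : ℝ) < m := by linarith
  set L : ℝ := Real.log m with hL
  have hLpos : 0 < L := Real.log_pos hm1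
  have hww := sqrt_rpow_sq m hm ρ
  have hw1 := sqrt_rpow_ne_one m hm ρ hρ
  have hwpos : 0 < Real.sqrt m ^ ρ := Real.rpow_pos_of_pos (Real.sqrt_pos.mpr hm0) _
  set w : ℝ := Real.sqrt m ^ ρ with hw
  have hpi : 0 < Real.pi := Real.pi_pos
  obtain ⟨n₀, hn₀⟩ := six_approx r kk (M₀ := 2) one_le_two (ρ : ℂ) (-1) ((Real.pi * ρ : ℝ) : ℂ)
    1 0 (-(2 * I)) (m : ℂ) 1 ((w : ℂ) * w) ((Real.exp ρ : ℝ) : ℂ) ![(L : ℂ), 1, 2 * Real.pi * I]
    (by
      change Complex.exp (L : ℂ) = (m : ℂ)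
      rw [← Complex.ofReal_exp, hL, Real.exp_log hm0]; simp)
    (by
      change Complex.exp (1 + -1 * 1) = 1
      norm_num)
    Complex.exp_two_pi_mul_I
    (by
      change Complex.exp ((ρ : ℂ) * (L : ℂ) + _ * 0) = (w : ℂ) * w
      rw [mul_zero, add_zero, ← Complex.ofReal_mul, ← Complex.ofReal_exp, ← Complex.ofReal_mul,
        hww])
    (by
      change Complex.exp ((ρ : ℂ) * 1) = ((Real.exp ρ : ℝ) : ℂ)
      rw [mul_one, ← Complex.ofReal_exp])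
    (by
      change Complex.exp ((ρ : ℂ) * (2 * Real.pi * I) + ((Real.pi * ρ : ℝ) : ℂ) * -(2 * I)) = 1
      have : (ρ : ℂ) * (2 * Real.pi * I) + ((Real.pi * ρ : ℝ) : ℂ) * -(2 * I) = 0 := by
        push_cast; ring
      rw [this, Complex.exp_zero])
  obtain ⟨μ0, hμ0, hg0⟩ := good_close w hwpos hw1
  obtain ⟨μ1, hμ1, hg1⟩ := good_close (Real.exp ρ) (Real.exp_pos ρ)
    (fun h => hρ ((Real.exp_eq_one_iff ρ).mp h))
  have hμ2 : 0 < |Real.pi * ρ| := abs_pos.mpr (mul_ne_zero hpi.ne' hρ)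
  obtain ⟨n₁, hn₁⟩ := eventually_small r kk (lt_min (lt_min hμ0 hμ1) hμ2)
  refine ⟨max n₀ (max n₁ m), ?_⟩
  intro n hn K _ _ hfr φ d hd1 hd M hM1 hM H hH hHM x ι hx hι hφι hclose
  have hE1 := hn₁ n ((le_max_left _ _).trans ((le_max_right _ _).trans hn))
  have hnm : m ≤ n := (le_max_right _ _).trans ((le_max_right _ _).trans hn)
  have hn0 : n₀ ≤ n := (le_max_left _ _).trans hn
  set E : ℝ := Real.exp (-((4 * (r : ℝ) + 5) * (n : ℝ) ^ (10 * kk + 54))) with hE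
  have hEpos : 0 < E := Real.exp_pos _
  have hE1' : E ≤ 1 := by
    rw [hE, Real.exp_le_one_iff, neg_nonpos]; positivity
  rw [le_min_iff, le_min_iff] at hE1
  obtain ⟨⟨e1, e2⟩, e3⟩ := hE1
  have h0 : (2 * (w + 1)) * ‖(w : ℂ) - φ (x 0)‖ ≤ E := hclose 0
  have h1 : (2 * (w + 1)) * ‖((Real.exp ρ : ℝ) : ℂ) - φ (x 1)‖ ≤ E := hclose 1
  have h2 : (2 * (w + 1)) * ‖((Real.pi * ρ : ℝ) : ℂ) - φ (x 2)‖ ≤ E := hclose 2
  have n0 := norm_nonneg ((w : ℂ) - φ (x 0))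
  have n1 := norm_nonneg (((Real.exp ρ : ℝ) : ℂ) - φ (x 1))
  have n2 := norm_nonneg (((Real.pi * ρ : ℝ) : ℂ) - φ (x 2))
  have half : ∀ y : ℝ, 0 ≤ y → (2 * (w + 1)) * y ≤ E → y ≤ E / 2 := by
    intro y hy h; nlinarith
  have c0 := half _ n0 h0
  have c1 := half _ n1 h1
  have c2 := half _ n2 h2
  obtain ⟨g0, g0'⟩ := hg0 (φ (x 0)) (by linarith)
  obtain ⟨g1, g1'⟩ := hg1 (φ (x 1)) (by linarith)
  have g2 : φ (x 2) ≠ 0 := ne_zero_of_close (x := Real.pi * ρ) (by linarith)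
  have g00 : ‖φ (x 0 * x 0)‖ ≠ 1 := by
    rw [map_mul, norm_mul]
    intro h
    have h5 : (‖φ (x 0)‖ - 1) * (‖φ (x 0)‖ + 1) = 0 := by linarith
    rcases mul_eq_zero.mp h5 with h6 | h6
    · exact g0' (by linarith)
    · have := norm_nonneg (φ (x 0)); linarith
  have hmφ : φ ((m : ℕ) : K) = (m : ℂ) := map_natCast φ m
  have hmn : 1 < ‖φ ((m : ℕ) : K)‖ := by
    rw [hmφ, Complex.norm_natCast]; exact hm1
  have hHsq : (1 + H) * (1 + H) ≤ M := by nlinarith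
  have hH2 : 1 + H ≤ M := by nlinarith
  have hMm : (m : ℝ) ≤ Real.exp ((n : ℝ) ^ kk) := by
    have h6 : (m : ℝ) ≤ n := by exact_mod_cast hnm
    have h7 : (n : ℝ) ≤ (n : ℝ) ^ kk := le_self_pow₀ (by linarith) (by omega)
    have h8 := Real.add_one_le_exp ((n : ℝ) ^ kk)
    linarith
  have hM'1 : 1 ≤ max M m := le_max_of_le_left hM1
  have hM' : max M m ≤ Real.exp ((n : ℝ) ^ kk) := max_le hM hMm
  have hMM : M ≤ max M m := le_max_left _ _
  let Λ : Pool.Agent.Lib.MP_f55379_nt.Lat :=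
    { α0 := φ ((m : ℕ) : K)
      α1 := 1
      β0 := φ (x 0 * x 0)
      β1 := φ (x 1)
      ε := 1
      δ := 0
      v := -(2 * I)
      κ₁ := -1
      κ₂ := φ (x 2)
      hα0 := by
        rw [← norm_pos_iff]; linarith
      hα1 := one_ne_zero
      hβ0 := by rw [map_mul]; exact mul_ne_zero g0 g0
      hβ1 := g1
      hε := one_ne_zero
      hv := by
        rw [neg_ne_zero]
        exact mul_ne_zero two_ne_zero I_ne_zero
      hκ₁ := by norm_num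
      hκ₂ := g2
      rα0 := fun n h => zpow_eq_one_of_norm hmn h
      rβ0 := fun n h => zpow_eq_one_of_norm_ne (by rw [map_mul]; exact mul_ne_zero g0 g0) g00 h
      ind := ind_of_norm_ne (by rw [← norm_pos_iff]; linarith) hmn.ne' g1 g1'
      sh := by
        intro m0 m2 h
        rw [zero_mul, zero_add, mul_eq_zero, neg_eq_zero] at h
        rcases h with h | h
        · exact absurd h (mul_ne_zero two_ne_zero I_ne_zero)
        · exact_mod_cast h }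
  refine hn₀ n hn0 K hfr φ d hd1 hd (max M m) hM'1 hM' (-1) (x 2) 1 0 (-(2 * ι)) ((m : ℕ) : K) 1
    (x 0 * x 0) (x 1)
    (Sz.one.neg.mono (by norm_num) hM'1)
    ((hx 2).mono (by norm_num) (hH2.trans hMM))
    (Sz.one.mono le_rfl one_le_two) (Sz.zero.mono le_rfl zero_le_two)
    ((sz_two_mul hι).mono le_rfl (by norm_num))
    ((Sz.natCast m).mono (by norm_num) (le_max_right _ _))
    (Sz.one.mono (by norm_num) hM'1)
    (((hx 0).mul (hx 0)).mono (by norm_num) (hHsq.trans hMM))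
    ((hx 1).mono (by norm_num) (hH2.trans hMM))
    (map_one φ) (map_zero φ) (by rw [map_neg, map_mul, hφι, map_ofNat]) ?_ ?_ ?_ ?_ ?_ ?_
    Λ rfl (map_one φ).symm rfl rfl rfl rfl rfl ?_ rfl
  · rw [map_neg, map_one, sub_self, norm_zero]; exact hEpos.le
  · linarith
  · rw [hmφ, sub_self, norm_zero]; exact hEpos.le
  · rw [map_one, sub_self, norm_zero]; exact hEpos.le
  · rw [map_mul]
    have h6 : ‖φ (x 0)‖ ≤ w + 1 := norm_le_of_close hwpos le_rfl (by linarith)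
    have h5 := norm_mul_sub_le (x := w) (y := w) (ξ := φ (x 0)) (η := φ (x 0)) (B := w + 1)
      (δ := E / (2 * (w + 1))) hwpos (by linarith) h6
      (by rw [le_div_iff₀ (by positivity)]; linarith) (by rw [le_div_iff₀ (by positivity)]; linarith)
    refine h5.trans (le_of_eq ?_)
    have hB : 2 * (w + 1) ≠ 0 := by positivity
    rw [← mul_div_assoc, mul_div_cancel_left₀ _ hB]
  · linarith
  · rw [map_neg, map_one]

theorem keyL (m : ℕ) (hm : 2 ≤ m) (ρ : ℝ) (hρ : ρ ≠ 0) (r kk : ℕ) (hkk : 1 ≤ kk) :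
    ∃ n₀ : ℕ, ∀ n : ℕ, n₀ ≤ n → ∀ (K : Type) [Field K] [NumberField K],
      Module.finrank ℚ K ≤ r → ∀ (φ : K →+* ℂ) (d : ℕ), 1 ≤ d →
      (d : ℝ) ≤ Real.exp ((n : ℝ) ^ kk) → ∀ M : ℝ, 1 ≤ M → M ≤ Real.exp ((n : ℝ) ^ kk) →
      ∀ (H : ℝ), 1 ≤ H → 2 * (1 + H) ^ 2 ≤ M → ∀ (x : Fin 3 → K) (ι : K),
      (∀ i, Sz d (x i) 1 (1 + H)) → Sz d ι 0 1 → φ ι = I →
      (∀ i, (2 * (Real.sqrt m ^ ρ + 1)) *
        ‖(((![Real.sqrt m ^ ρ, Real.exp ρ, Real.pi * Real.log m] : Fin 3 → ℝ) i : ℝ) : ℂ) - φ (x i)‖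
        ≤ Real.exp (-((4 * r + 5) * (n : ℝ) ^ (10 * kk + 54)))) → False := by
  have hm1 : (1 : ℝ) < m := by
    have : 1 < m := by omega
    exact_mod_cast this
  have hm0 : (0 : ℝ) < m := by linarith
  set L : ℝ := Real.log m with hL
  have hLpos : 0 < L := Real.log_pos hm1
  have hww := sqrt_rpow_sq m hm ρ
  have hw1 := sqrt_rpow_ne_one m hm ρ hρ
  have hwpos : 0 < Real.sqrt m ^ ρ := Real.rpow_pos_of_pos (Real.sqrt_pos.mpr hm0) _
  set w : ℝ := Real.sqrt m ^ ρ with hw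
  have hpi : 0 < Real.pi := Real.pi_pos
  obtain ⟨n₀, hn₀⟩ := six_approx r kk (M₀ := 2) one_le_two (L : ℂ) (-1) ((Real.pi * L : ℝ) : ℂ)
    1 0 (-(2 * I)) ((Real.exp ρ : ℝ) : ℂ) 1 ((w : ℂ) * w) (m : ℂ) ![(ρ : ℂ), 1, 2 * Real.pi * I]
    (by
      change Complex.exp (ρ : ℂ) = ((Real.exp ρ : ℝ) : ℂ)
      rw [← Complex.ofReal_exp])
    (by
      change Complex.exp (1 + -1 * 1) = 1
      norm_num)
    Complex.exp_two_pi_mul_I
    (by
      change Complex.exp ((L : ℂ) * (ρ : ℂ) + _ * 0) = (w : ℂ) * w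
      rw [mul_zero, add_zero, ← Complex.ofReal_mul, ← Complex.ofReal_exp, ← Complex.ofReal_mul,
        hww, mul_comm])
    (by
      change Complex.exp ((L : ℂ) * 1) = (m : ℂ)
      rw [mul_one, ← Complex.ofReal_exp, hL, Real.exp_log hm0]; simp)
    (by
      change Complex.exp ((L : ℂ) * (2 * Real.pi * I) + ((Real.pi * L : ℝ) : ℂ) * -(2 * I)) = 1
      have : (L : ℂ) * (2 * Real.pi * I) + ((Real.pi * L : ℝ) : ℂ) * -(2 * I) = 0 := by
        push_cast; ring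
      rw [this, Complex.exp_zero])
  obtain ⟨μ0, hμ0, hg0⟩ := good_close w hwpos hw1
  obtain ⟨μ1, hμ1, hg1⟩ := good_close (Real.exp ρ) (Real.exp_pos ρ)
    (fun h => hρ ((Real.exp_eq_one_iff ρ).mp h))
  have hμ2 : 0 < |Real.pi * L| := abs_pos.mpr (mul_ne_zero hpi.ne' hLpos.ne')
  obtain ⟨n₁, hn₁⟩ := eventually_small r kk (lt_min (lt_min hμ0 hμ1) hμ2)
  refine ⟨max n₀ (max n₁ m), ?_⟩
  intro n hn K _ _ hfr φ d hd1 hd M hM1 hM H hH hHM x ι hx hι hφι hclose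
  have hE1 := hn₁ n ((le_max_left _ _).trans ((le_max_right _ _).trans hn))
  have hnm : m ≤ n := (le_max_right _ _).trans ((le_max_right _ _).trans hn)
  have hn0 : n₀ ≤ n := (le_max_left _ _).trans hn
  set E : ℝ := Real.exp (-((4 * (r : ℝ) + 5) * (n : ℝ) ^ (10 * kk + 54))) with hE
  have hEpos : 0 < E := Real.exp_pos _
  have hE1' : E ≤ 1 := by
    rw [hE, Real.exp_le_one_iff, neg_nonpos]; positivity
  rw [le_min_iff, le_min_iff] at hE1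
  obtain ⟨⟨e1, e2⟩, e3⟩ := hE1
  have h0 : (2 * (w + 1)) * ‖(w : ℂ) - φ (x 0)‖ ≤ E := hclose 0
  have h1 : (2 * (w + 1)) * ‖((Real.exp ρ : ℝ) : ℂ) - φ (x 1)‖ ≤ E := hclose 1
  have h2 : (2 * (w + 1)) * ‖((Real.pi * L : ℝ) : ℂ) - φ (x 2)‖ ≤ E := hclose 2
  have n0 := norm_nonneg ((w : ℂ) - φ (x 0))
  have n1 := norm_nonneg (((Real.exp ρ : ℝ) : ℂ) - φ (x 1))
  have n2 := norm_nonneg (((Real.pi * L : ℝ) : ℂ) - φ (x 2))
  have half : ∀ y : ℝ, 0 ≤ y → (2 * (w + 1)) * y ≤ E → y ≤ E / 2 := by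
    intro y hy h; nlinarith
  have c0 := half _ n0 h0
  have c1 := half _ n1 h1
  have c2 := half _ n2 h2
  obtain ⟨g0, g0'⟩ := hg0 (φ (x 0)) (by linarith)
  obtain ⟨g1, g1'⟩ := hg1 (φ (x 1)) (by linarith)
  have g2 : φ (x 2) ≠ 0 := ne_zero_of_close (x := Real.pi * L) (by linarith)
  have g00 : ‖φ (x 0 * x 0)‖ ≠ 1 := by
    rw [map_mul, norm_mul]
    intro h
    have h5 : (‖φ (x 0)‖ - 1) * (‖φ (x 0)‖ + 1) = 0 := by linarith
    rcases mul_eq_zero.mp h5 with h6 | h6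
    · exact g0' (by linarith)
    · have := norm_nonneg (φ (x 0)); linarith
  have hmφ : φ ((m : ℕ) : K) = (m : ℂ) := map_natCast φ m
  have hmn : 1 < ‖φ ((m : ℕ) : K)‖ := by
    rw [hmφ, Complex.norm_natCast]; exact hm1
  have hHsq : (1 + H) * (1 + H) ≤ M := by nlinarith
  have hH2 : 1 + H ≤ M := by nlinarith
  have hMm : (m : ℝ) ≤ Real.exp ((n : ℝ) ^ kk) := by
    have h6 : (m : ℝ) ≤ n := by exact_mod_cast hnm
    have h7 : (n : ℝ) ≤ (n : ℝ) ^ kk := le_self_pow₀ (by linarith) (by omega)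
    have h8 := Real.add_one_le_exp ((n : ℝ) ^ kk)
    linarith
  have hM'1 : 1 ≤ max M m := le_max_of_le_left hM1
  have hM' : max M m ≤ Real.exp ((n : ℝ) ^ kk) := max_le hM hMm
  have hMM : M ≤ max M m := le_max_left _ _
  let Λ : Pool.Agent.Lib.MP_f55379_nt.Lat :=
    { α0 := φ (x 1)
      α1 := 1
      β0 := φ (x 0 * x 0)
      β1 := φ ((m : ℕ) : K)
      ε := 1
      δ := 0
      v := -(2 * I)
      κ₁ := -1
      κ₂ := φ (x 2)
      hα0 := g1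
      hα1 := one_ne_zero
      hβ0 := by rw [map_mul]; exact mul_ne_zero g0 g0
      hβ1 := by
        rw [← norm_pos_iff]; linarith
      hε := one_ne_zero
      hv := by
        rw [neg_ne_zero]
        exact mul_ne_zero two_ne_zero I_ne_zero
      hκ₁ := by norm_num
      hκ₂ := g2
      rα0 := fun n h => zpow_eq_one_of_norm_ne g1 g1' h
      rβ0 := fun n h => zpow_eq_one_of_norm_ne (by rw [map_mul]; exact mul_ne_zero g0 g0) g00 h
      ind := ind_of_norm_ne g1 g1' (by rw [← norm_pos_iff]; linarith) hmn.ne'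
      sh := by
        intro m0 m2 h
        rw [zero_mul, zero_add, mul_eq_zero, neg_eq_zero] at h
        rcases h with h | h
        · exact absurd h (mul_ne_zero two_ne_zero I_ne_zero)
        · exact_mod_cast h }
  refine hn₀ n hn0 K hfr φ d hd1 hd (max M m) hM'1 hM' (-1) (x 2) 1 0 (-(2 * ι)) (x 1) 1
    (x 0 * x 0) ((m : ℕ) : K)
    (Sz.one.neg.mono (by norm_num) hM'1)
    ((hx 2).mono (by norm_num) (hH2.trans hMM))
    (Sz.one.mono le_rfl one_le_two) (Sz.zero.mono le_rfl zero_le_two)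
    ((sz_two_mul hι).mono le_rfl (by norm_num))
    ((hx 1).mono (by norm_num) (hH2.trans hMM))
    (Sz.one.mono (by norm_num) hM'1)
    (((hx 0).mul (hx 0)).mono (by norm_num) (hHsq.trans hMM))
    ((Sz.natCast m).mono (by norm_num) (le_max_right _ _))
    (map_one φ) (map_zero φ) (by rw [map_neg, map_mul, hφι, map_ofNat]) ?_ ?_ ?_ ?_ ?_ ?_
    Λ rfl (map_one φ).symm rfl rfl rfl rfl rfl ?_ rfl
  · rw [map_neg, map_one, sub_self, norm_zero]; exact hEpos.le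
  · linarith
  · linarith
  · rw [map_one, sub_self, norm_zero]; exact hEpos.le
  · rw [map_mul]
    have h6 : ‖φ (x 0)‖ ≤ w + 1 := norm_le_of_close hwpos le_rfl (by linarith)
    have h5 := norm_mul_sub_le (x := w) (y := w) (ξ := φ (x 0)) (η := φ (x 0)) (B := w + 1)
      (δ := E / (2 * (w + 1))) hwpos (by linarith) h6
      (by rw [le_div_iff₀ (by positivity)]; linarith) (by rw [le_div_iff₀ (by positivity)]; linarith)
    refine h5.trans (le_of_eq ?_)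
    have hB : 2 * (w + 1) ≠ 0 := by positivity
    rw [← mul_div_assoc, mul_div_cancel_left₀ _ hB]
  · rw [hmφ, sub_self, norm_zero]; exact hEpos.le
  · rw [map_neg, map_one]

/-- Measure for `√m ^ ρ`, `e ^ ρ`, `π ρ`. -/
theorem measureT (m : ℕ) (hm : 2 ≤ m) (ρ : ℝ) (hρ : ρ ≠ 0) (D : ℕ) {κ : ℝ} (hκ : 10 < κ) :
    ∃ C : ℝ, ∀ H : ℝ, 2 ≤ H → ∀ ξ : Fin 3 → ℂ, (∀ i, HtLe D H (ξ i)) →
      Real.exp (-(C * Real.log H ^ κ)) ≤
        max (max ‖((Real.sqrt m ^ ρ : ℝ) : ℂ) - ξ 0‖ ‖((Real.exp ρ : ℝ) : ℂ) - ξ 1‖)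
          ‖((Real.pi * ρ : ℝ) : ℂ) - ξ 2‖ :=
  measure_frame_const D hκ _ (2 * (Real.sqrt m ^ ρ + 1))
    (by have := Real.rpow_nonneg (Real.sqrt_nonneg m) ρ; linarith)
    fun r kk hkk => keyT m hm ρ hρ r kk hkk

/-- Measure for `√m ^ ρ`, `e ^ ρ`, `π log m`. -/
theorem measureL (m : ℕ) (hm : 2 ≤ m) (ρ : ℝ) (hρ : ρ ≠ 0) (D : ℕ) {κ : ℝ} (hκ : 10 < κ) :
    ∃ C : ℝ, ∀ H : ℝ, 2 ≤ H → ∀ ξ : Fin 3 → ℂ, (∀ i, HtLe D H (ξ i)) →
      Real.exp (-(C * Real.log H ^ κ)) ≤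
        max (max ‖((Real.sqrt m ^ ρ : ℝ) : ℂ) - ξ 0‖ ‖((Real.exp ρ : ℝ) : ℂ) - ξ 1‖)
          ‖((Real.pi * Real.log m : ℝ) : ℂ) - ξ 2‖ :=
  measure_frame_const D hκ _ (2 * (Real.sqrt m ^ ρ + 1))
    (by have := Real.rpow_nonneg (Real.sqrt_nonneg m) ρ; linarith)
    fun r kk hkk => keyL m hm ρ hρ r kk hkk

end Pool.Agent.Lib.MP_93d8d2_nt
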