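import Pool.Agent.Lib.MP_93d8d2_nt.Frame2
import Pool.Agent.Lib.MP_93d8d2_nt.Tower

/-!
# Measures for `√m ^ ρ`, `(q e ^ a) ^ (1 / ρ)`, `π / ρ` and for `√m ^ ρ`, `e ^ (1 / ρ)`,
`π ρ log m`, and for `√m ^ ρ`, `(q e ^ a) ^ ρ`, `π ρ`
-/

namespace Pool.Agent.Lib.MP_93d8d2_nt

open Complex Pool.Agent.Lib.MP_f55379_nt

/-- a common denominator which also bounds the rational numbers and `m` -/
def cden (q a : ℚ) (m : ℕ) : ℕ :=
  q.den * a.den * (m + 1) * (q.num.natAbs + 1) * (a.num.natAbs + 1)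

theorem cden_pos (q a : ℚ) (m : ℕ) : 1 ≤ cden q a m := by
  have h1 := q.pos
  have h2 := a.pos
  unfold cden
  have : 0 < q.den * a.den * (m + 1) * (q.num.natAbs + 1) * (a.num.natAbs + 1) := by positivity
  omega

theorem abs_le_natAbs (q : ℚ) : |(q : ℝ)| ≤ (q.num.natAbs : ℝ) := by
  have h1 : |q| * q.den = |q.num| := by
    have h2 : q * q.den = q.num := Rat.mul_den_eq_num q
    have h3 : |q * q.den| = |(q.num : ℚ)| := by rw [h2]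
    rw [abs_mul, Nat.abs_cast] at h3
    rw [h3]; push_cast; rfl
  have hd : (1 : ℚ) ≤ q.den := by exact_mod_cast q.pos
  have h4 : |q| ≤ (q.num.natAbs : ℚ) := by
    have h5 : (q.num.natAbs : ℚ) = ((|q.num| : ℤ) : ℚ) := by
      rw [Int.abs_eq_natAbs, Int.cast_natCast]
    rw [h5, ← h1]
    nlinarith [abs_nonneg q]
  have h6 : ((|q| : ℚ) : ℝ) ≤ ((q.num.natAbs : ℚ) : ℝ) := by exact_mod_cast h4
  push_cast at h6
  exact h6

theorem cden_facts (q a : ℚ) (m : ℕ) {d : ℕ} (hd : cden q a m ∣ d) :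
    q.den ∣ d ∧ a.den ∣ d := by
  constructor
  · refine Dvd.dvd.trans ?_ hd
    unfold cden
    exact ⟨a.den * (m + 1) * (q.num.natAbs + 1) * (a.num.natAbs + 1), by ring⟩
  · refine Dvd.dvd.trans ?_ hd
    unfold cden
    exact ⟨q.den * (m + 1) * (q.num.natAbs + 1) * (a.num.natAbs + 1), by ring⟩

theorem cden_bounds (q a : ℚ) (m : ℕ) : (m : ℝ) ≤ cden q a m ∧ |(q : ℝ)| ≤ cden q a m ∧
    |(a : ℝ)| ≤ cden q a m := by
  have h1 := q.pos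
  have h2 := a.pos
  have key : m ≤ cden q a m ∧ q.num.natAbs ≤ cden q a m ∧ a.num.natAbs ≤ cden q a m := by
    unfold cden
    obtain ⟨x, hx⟩ : ∃ x, q.den = x + 1 := ⟨q.den - 1, by omega⟩
    obtain ⟨y, hy⟩ : ∃ y, a.den = y + 1 := ⟨a.den - 1, by omega⟩
    rw [hx, hy]
    have e1 : 1 ≤ (x + 1) * (y + 1) := by nlinarith
    have e2 : m + 1 ≤ (x + 1) * (y + 1) * (m + 1) := Nat.le_mul_of_pos_left _ (by positivity)
    have e3 : 1 ≤ (x + 1) * (y + 1) * (m + 1) := by omega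
    have e4 : q.num.natAbs + 1 ≤ (x + 1) * (y + 1) * (m + 1) * (q.num.natAbs + 1) :=
      Nat.le_mul_of_pos_left _ (by positivity)
    have e5 : (x + 1) * (y + 1) * (m + 1) ≤ (x + 1) * (y + 1) * (m + 1) * (q.num.natAbs + 1) :=
      Nat.le_mul_of_pos_right _ (by positivity)
    have e6 : a.num.natAbs + 1 ≤
        (x + 1) * (y + 1) * (m + 1) * (q.num.natAbs + 1) * (a.num.natAbs + 1) :=
      Nat.le_mul_of_pos_left _ (by positivity)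
    have e7 : (x + 1) * (y + 1) * (m + 1) * (q.num.natAbs + 1) ≤
        (x + 1) * (y + 1) * (m + 1) * (q.num.natAbs + 1) * (a.num.natAbs + 1) :=
      Nat.le_mul_of_pos_right _ (by positivity)
    omega
  refine ⟨by exact_mod_cast key.1, (abs_le_natAbs q).trans (by exact_mod_cast key.2.1),
    (abs_le_natAbs a).trans (by exact_mod_cast key.2.2)⟩

theorem close_half {A y E : ℝ} (hA : 1 ≤ A) (hy : 0 ≤ y) (h : A * y ≤ E) : y ≤ E := by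
  nlinarith

/-- Squares of close numbers are close. -/
theorem sq_close {w E : ℝ} (hw : 0 < w) {ξ : ℂ} (hE : E ≤ 1)
    (h : (2 * (w + 1)) * ‖(w : ℂ) - ξ‖ ≤ E) : ‖((w * w : ℝ) : ℂ) - ξ * ξ‖ ≤ E := by
  have h0 := norm_nonneg ((w : ℂ) - ξ)
  have h1 : ‖(w : ℂ) - ξ‖ ≤ 1 := by nlinarith
  have h6 : ‖ξ‖ ≤ w + 1 := norm_le_of_close hw le_rfl h1
  have h5 := norm_mul_sub_le (x := w) (y := w) (ξ := ξ) (η := ξ) (B := w + 1)
    (δ := E / (2 * (w + 1))) hw (by linarith) h6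
    (by rw [le_div_iff₀ (by positivity)]; linarith) (by rw [le_div_iff₀ (by positivity)]; linarith)
  rw [Complex.ofReal_mul]
  refine h5.trans (le_of_eq ?_)
  have hB : 2 * (w + 1) ≠ 0 := by positivity
  rw [← mul_div_assoc, mul_div_cancel_left₀ _ hB]

/-- the common assembly: the four numbers are `w ^ 2` and `m` (in one of the two orders), the
second number and the third number -/
theorem keyInv (m : ℕ) (hm : 2 ≤ m) (ρ : ℝ) (hρ : ρ ≠ 0) (q a : ℚ) (hq : 0 < q) (ha : a ≠ 0)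
    (r kk : ℕ) :
    ∃ n₀ : ℕ, ∀ n : ℕ, n₀ ≤ n → ∀ (K : Type) [Field K] [NumberField K],
      Module.finrank ℚ K ≤ r → ∀ (φ : K →+* ℂ) (d : ℕ), 1 ≤ d → cden q a m ∣ d →
      (d : ℝ) ≤ Real.exp ((n : ℝ) ^ kk) → ∀ M : ℝ, 1 ≤ M → M ≤ Real.exp ((n : ℝ) ^ kk) →
      ∀ (H : ℝ), 1 ≤ H → cden q a m * (2 * (1 + H) ^ 2) ≤ M → ∀ (x : Fin 3 → K) (ι : K),
      (∀ i, Sz d (x i) 1 (1 + H)) → Sz d ι 0 1 → φ ι = I →
      (∀ i, (2 * (Real.sqrt m ^ ρ + 1)) *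
        ‖(((![Real.sqrt m ^ ρ, ((q : ℝ) * Real.exp a) ^ (1 / ρ), Real.pi / ρ] : Fin 3 → ℝ) i : ℝ)
          : ℂ) - φ (x i)‖
        ≤ Real.exp (-((4 * r + 5) * (n : ℝ) ^ (10 * kk + 54)))) → False := by
  have hm1 : (1 : ℝ) < m := by
    have : 1 < m := by omega
    exact_mod_cast this
  have hm0 : (0 : ℝ) < m := by linarith
  have hLpos : 0 < Real.log m := Real.log_pos hm1
  have hww := sqrt_rpow_sq m hm ρ
  have hwpos : 0 < Real.sqrt m ^ ρ := Real.rpow_pos_of_pos (Real.sqrt_pos.mpr hm0) _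
  set w : ℝ := Real.sqrt m ^ ρ with hw
  obtain ⟨n₀, hn₀⟩ := four_core (ρ * Real.log m) (1 / ρ) (mul_ne_zero hρ hLpos.ne')
    (one_div_ne_zero hρ) q a hq ha r kk
  refine ⟨n₀, ?_⟩
  intro n hn K _ _ hfr φ d hd1 hcd hd M hM1 hM H hH hHM x ι hx hι hφι hclose
  set E : ℝ := Real.exp (-((4 * (r : ℝ) + 5) * (n : ℝ) ^ (10 * kk + 54))) with hE
  have hE1 : E ≤ 1 := by
    rw [hE, Real.exp_le_one_iff, neg_nonpos]; positivity
  have hEpos : 0 < E := Real.exp_pos _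
  have h0 : (2 * (w + 1)) * ‖(w : ℂ) - φ (x 0)‖ ≤ E := hclose 0
  have h1 : (2 * (w + 1)) * ‖((((q : ℝ) * Real.exp a) ^ (1 / ρ) : ℝ) : ℂ) - φ (x 1)‖ ≤ E :=
    hclose 1
  have h2 : (2 * (w + 1)) * ‖((Real.pi / ρ : ℝ) : ℂ) - φ (x 2)‖ ≤ E := hclose 2
  obtain ⟨c1, c2, c3⟩ := cden_bounds q a m
  obtain ⟨f1, f2⟩ := cden_facts q a m hcd
  have hc0 : (1 : ℝ) ≤ cden q a m := by exact_mod_cast cden_pos q a m
  have hone : (1 : ℝ) ≤ 2 * (1 + H) ^ 2 := by nlinarith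
  have hcM : (cden q a m : ℝ) ≤ M := by nlinarith
  have hHM' : 2 * (1 + H) ^ 2 ≤ M := by nlinarith
  have hHsq : (1 + H) * (1 + H) ≤ M := by nlinarith
  have hH2 : 1 + H ≤ M := by nlinarith
  have hmφ : φ ((m : ℕ) : K) = (m : ℂ) := map_natCast φ m
  refine hn₀ n hn K hfr φ d hd1 hd M hM1 hM f1 f2 (c2.trans hcM) (c3.trans hcM)
    (x 0 * x 0) ((m : ℕ) : K) (x 1) (x 2) ι
    (((hx 0).mul (hx 0)).mono (by norm_num) hHsq)
    ((Sz.natCast m).mono (by norm_num) (c1.trans hcM))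
    ((hx 1).mono (by norm_num) hH2) ((hx 2).mono (by norm_num) hH2) hι hφι ?_ ?_ ?_ ?_
  · rw [← hww, map_mul]
    exact sq_close hwpos hE1 h0
  · have h5 : Real.exp (1 / ρ * (ρ * Real.log m)) = m := by
      rw [← mul_assoc, one_div_mul_cancel hρ, one_mul, Real.exp_log hm0]
    rw [h5, hmφ, Complex.ofReal_natCast, sub_self, norm_zero]; exact hEpos.le
  · exact close_half (by linarith) (norm_nonneg _) h1
  · have h5 : Real.pi * (1 / ρ) = Real.pi / ρ := by ring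
    rw [h5]
    exact close_half (by linarith) (norm_nonneg _) h2

theorem keyLogW (m : ℕ) (hm : 2 ≤ m) (ρ : ℝ) (hρ : ρ ≠ 0) (r kk : ℕ) :
    ∃ n₀ : ℕ, ∀ n : ℕ, n₀ ≤ n → ∀ (K : Type) [Field K] [NumberField K],
      Module.finrank ℚ K ≤ r → ∀ (φ : K →+* ℂ) (d : ℕ), 1 ≤ d → cden 1 1 m ∣ d →
      (d : ℝ) ≤ Real.exp ((n : ℝ) ^ kk) → ∀ M : ℝ, 1 ≤ M → M ≤ Real.exp ((n : ℝ) ^ kk) →
      ∀ (H : ℝ), 1 ≤ H → cden 1 1 m * (2 * (1 + H) ^ 2) ≤ M → ∀ (x : Fin 3 → K) (ι : K),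
      (∀ i, Sz d (x i) 1 (1 + H)) → Sz d ι 0 1 → φ ι = I →
      (∀ i, (4 * (Real.sqrt m ^ ρ + 1)) *
        ‖(((![Real.sqrt m ^ ρ, Real.exp (1 / ρ), Real.pi * Real.log (Real.sqrt m ^ ρ)] :
          Fin 3 → ℝ) i : ℝ) : ℂ) - φ (x i)‖
        ≤ Real.exp (-((4 * r + 5) * (n : ℝ) ^ (10 * kk + 54)))) → False := by
  have hm1 : (1 : ℝ) < m := by
    have : 1 < m := by omega
    exact_mod_cast this
  have hm0 : (0 : ℝ) < m := by linarith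
  have hLpos : 0 < Real.log m := Real.log_pos hm1
  have hww := sqrt_rpow_sq m hm ρ
  have hwpos : 0 < Real.sqrt m ^ ρ := Real.rpow_pos_of_pos (Real.sqrt_pos.mpr hm0) _
  set w : ℝ := Real.sqrt m ^ ρ with hw
  have hlw : ρ * Real.log m = 2 * Real.log w := by
    have := congrArg Real.log hww
    rw [Real.log_mul hwpos.ne' hwpos.ne', Real.log_exp] at this
    linarith
  obtain ⟨n₀, hn₀⟩ := four_core (1 / ρ) (ρ * Real.log m) (one_div_ne_zero hρ)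
    (mul_ne_zero hρ hLpos.ne') 1 1 one_pos one_ne_zero r kk
  refine ⟨n₀, ?_⟩
  intro n hn K _ _ hfr φ d hd1 hcd hd M hM1 hM H hH hHM x ι hx hι hφι hclose
  set E : ℝ := Real.exp (-((4 * (r : ℝ) + 5) * (n : ℝ) ^ (10 * kk + 54))) with hE
  have hE1 : E ≤ 1 := by
    rw [hE, Real.exp_le_one_iff, neg_nonpos]; positivity
  have hEpos : 0 < E := Real.exp_pos _
  have h0 : (4 * (w + 1)) * ‖(w : ℂ) - φ (x 0)‖ ≤ E := hclose 0
  have h1 : (4 * (w + 1)) * ‖((Real.exp (1 / ρ) : ℝ) : ℂ) - φ (x 1)‖ ≤ E := hclose 1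
  have h2 : (4 * (w + 1)) * ‖((Real.pi * Real.log w : ℝ) : ℂ) - φ (x 2)‖ ≤ E := hclose 2
  obtain ⟨c1, c2, c3⟩ := cden_bounds 1 1 m
  obtain ⟨f1, f2⟩ := cden_facts 1 1 m hcd
  have hc0 : (1 : ℝ) ≤ cden 1 1 m := by exact_mod_cast cden_pos 1 1 m
  have hone : (1 : ℝ) ≤ 2 * (1 + H) ^ 2 := by nlinarith
  have hcM : (cden 1 1 m : ℝ) ≤ M := by nlinarith
  have hHM' : 2 * (1 + H) ^ 2 ≤ M := by nlinarith
  have hHsq : (1 + H) * (1 + H) ≤ M := by nlinarith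
  have hH2 : 1 + H ≤ M := by nlinarith
  have hH22 : 2 * (1 + H) ≤ M := by nlinarith
  have hmφ : φ ((m : ℕ) : K) = (m : ℂ) := map_natCast φ m
  have s2 : Sz d ((2 : K) * x 2) 1 (2 * (1 + H)) := by
    have h2' : Sz d (2 : K) 0 2 := by
      have := Sz.natCast (K := K) (d := d) 2
      simpa using this
    have := h2'.mul (hx 2)
    rwa [zero_add] at this
  refine hn₀ n hn K hfr φ d hd1 hd M hM1 hM f1 f2 (c2.trans hcM) (c3.trans hcM)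
    (x 1) ((m : ℕ) : K) (x 0 * x 0) (2 * x 2) ι
    ((hx 1).mono (by norm_num) hH2)
    ((Sz.natCast m).mono (by norm_num) (c1.trans hcM))
    (((hx 0).mul (hx 0)).mono (by norm_num) hHsq)
    (s2.mono (by norm_num) hH22) hι hφι ?_ ?_ ?_ ?_
  · exact close_half (by linarith) (norm_nonneg _) h1
  · have h5 : Real.exp (ρ * Real.log m * (1 / ρ)) = m := by
      have h6 : ρ * Real.log m * (1 / ρ) = Real.log m := by field_simp
      rw [h6, Real.exp_log hm0]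
    rw [h5, hmφ, Complex.ofReal_natCast, sub_self, norm_zero]; exact hEpos.le
  · have h5 : (((1 : ℚ) : ℝ) * Real.exp ((1 : ℚ) : ℝ)) ^ (ρ * Real.log m) = w * w := by
      rw [Rat.cast_one, one_mul, Real.exp_one_rpow, ← hww]
    rw [h5, map_mul]
    refine sq_close hwpos hE1 ?_
    have h7 := norm_nonneg ((w : ℂ) - φ (x 0))
    nlinarith
  · have h5 : ((Real.pi * (ρ * Real.log m) : ℝ) : ℂ) - φ (2 * x 2)
        = 2 * (((Real.pi * Real.log w : ℝ) : ℂ) - φ (x 2)) := by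
      rw [hlw, map_mul, map_ofNat]; push_cast; ring
    rw [h5, norm_mul, Complex.norm_ofNat]
    have h7 := norm_nonneg (((Real.pi * Real.log w : ℝ) : ℂ) - φ (x 2))
    nlinarith

theorem keyFam (m : ℕ) (hm : 2 ≤ m) (ρ : ℝ) (hρ : ρ ≠ 0) (q a : ℚ) (hq : 0 < q) (ha : a ≠ 0)
    (r kk : ℕ) :
    ∃ n₀ : ℕ, ∀ n : ℕ, n₀ ≤ n → ∀ (K : Type) [Field K] [NumberField K],
      Module.finrank ℚ K ≤ r → ∀ (φ : K →+* ℂ) (d : ℕ), 1 ≤ d → cden q a m ∣ d →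
      (d : ℝ) ≤ Real.exp ((n : ℝ) ^ kk) → ∀ M : ℝ, 1 ≤ M → M ≤ Real.exp ((n : ℝ) ^ kk) →
      ∀ (H : ℝ), 1 ≤ H → cden q a m * (2 * (1 + H) ^ 2) ≤ M → ∀ (x : Fin 3 → K) (ι : K),
      (∀ i, Sz d (x i) 1 (1 + H)) → Sz d ι 0 1 → φ ι = I →
      (∀ i, (2 * (Real.sqrt m ^ ρ + 1)) *
        ‖(((![Real.sqrt m ^ ρ, ((q : ℝ) * Real.exp a) ^ ρ, Real.pi * ρ] : Fin 3 → ℝ) i : ℝ)
          : ℂ) - φ (x i)‖
        ≤ Real.exp (-((4 * r + 5) * (n : ℝ) ^ (10 * kk + 54)))) → False := by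
  have hm1 : (1 : ℝ) < m := by
    have : 1 < m := by omega
    exact_mod_cast this
  have hm0 : (0 : ℝ) < m := by linarith
  have hLpos : 0 < Real.log m := Real.log_pos hm1
  have hww := sqrt_rpow_sq m hm ρ
  have hwpos : 0 < Real.sqrt m ^ ρ := Real.rpow_pos_of_pos (Real.sqrt_pos.mpr hm0) _
  set w : ℝ := Real.sqrt m ^ ρ with hw
  obtain ⟨n₀, hn₀⟩ := four_core (Real.log m) ρ hLpos.ne' hρ q a hq ha r kk
  refine ⟨n₀, ?_⟩
  intro n hn K _ _ hfr φ d hd1 hcd hd M hM1 hM H hH hHM x ι hx hι hφι hclose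
  set E : ℝ := Real.exp (-((4 * (r : ℝ) + 5) * (n : ℝ) ^ (10 * kk + 54))) with hE
  have hE1 : E ≤ 1 := by
    rw [hE, Real.exp_le_one_iff, neg_nonpos]; positivity
  have hEpos : 0 < E := Real.exp_pos _
  have h0 : (2 * (w + 1)) * ‖(w : ℂ) - φ (x 0)‖ ≤ E := hclose 0
  have h1 : (2 * (w + 1)) * ‖((((q : ℝ) * Real.exp a) ^ ρ : ℝ) : ℂ) - φ (x 1)‖ ≤ E :=
    hclose 1
  have h2 : (2 * (w + 1)) * ‖((Real.pi * ρ : ℝ) : ℂ) - φ (x 2)‖ ≤ E := hclose 2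
  obtain ⟨c1, c2, c3⟩ := cden_bounds q a m
  obtain ⟨f1, f2⟩ := cden_facts q a m hcd
  have hc0 : (1 : ℝ) ≤ cden q a m := by exact_mod_cast cden_pos q a m
  have hone : (1 : ℝ) ≤ 2 * (1 + H) ^ 2 := by nlinarith
  have hcM : (cden q a m : ℝ) ≤ M := by nlinarith
  have hHM' : 2 * (1 + H) ^ 2 ≤ M := by nlinarith
  have hHsq : (1 + H) * (1 + H) ≤ M := by nlinarith
  have hH2 : 1 + H ≤ M := by nlinarith
  have hmφ : φ ((m : ℕ) : K) = (m : ℂ) := map_natCast φ m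
  refine hn₀ n hn K hfr φ d hd1 hd M hM1 hM f1 f2 (c2.trans hcM) (c3.trans hcM)
    ((m : ℕ) : K) (x 0 * x 0) (x 1) (x 2) ι
    ((Sz.natCast m).mono (by norm_num) (c1.trans hcM))
    (((hx 0).mul (hx 0)).mono (by norm_num) hHsq)
    ((hx 1).mono (by norm_num) hH2) ((hx 2).mono (by norm_num) hH2) hι hφι ?_ ?_ ?_ ?_
  · rw [Real.exp_log hm0, hmφ, Complex.ofReal_natCast, sub_self, norm_zero]; exact hEpos.le
  · rw [← hww, map_mul]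
    exact sq_close hwpos hE1 h0
  · exact close_half (by linarith) (norm_nonneg _) h1
  · exact close_half (by linarith) (norm_nonneg _) h2

/-- Measure for `√m ^ ρ`, `(q e ^ a) ^ (1 / ρ)`, `π / ρ`. -/
theorem measureInv (m : ℕ) (hm : 2 ≤ m) (ρ : ℝ) (hρ : ρ ≠ 0) (q a : ℚ) (hq : 0 < q) (ha : a ≠ 0)
    (D : ℕ) {κ : ℝ} (hκ : 10 < κ) :
    ∃ C : ℝ, ∀ H : ℝ, 2 ≤ H → ∀ ξ : Fin 3 → ℂ, (∀ i, HtLe D H (ξ i)) →
      Real.exp (-(C * Real.log H ^ κ)) ≤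
        max (max ‖((Real.sqrt m ^ ρ : ℝ) : ℂ) - ξ 0‖
          ‖((((q : ℝ) * Real.exp a) ^ (1 / ρ) : ℝ) : ℂ) - ξ 1‖)
          ‖((Real.pi / ρ : ℝ) : ℂ) - ξ 2‖ :=
  measure_frame_den D hκ _ (2 * (Real.sqrt m ^ ρ + 1))
    (by have := Real.rpow_nonneg (Real.sqrt_nonneg m) ρ; linarith) (cden q a m) (cden_pos q a m)
    fun r kk _ => keyInv m hm ρ hρ q a hq ha r kk

/-- Measure for `√m ^ ρ`, `e ^ (1 / ρ)`, `π log (√m ^ ρ)`. -/
theorem measureLogW (m : ℕ) (hm : 2 ≤ m) (ρ : ℝ) (hρ : ρ ≠ 0) (D : ℕ) {κ : ℝ} (hκ : 10 < κ) :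
    ∃ C : ℝ, ∀ H : ℝ, 2 ≤ H → ∀ ξ : Fin 3 → ℂ, (∀ i, HtLe D H (ξ i)) →
      Real.exp (-(C * Real.log H ^ κ)) ≤
        max (max ‖((Real.sqrt m ^ ρ : ℝ) : ℂ) - ξ 0‖ ‖((Real.exp (1 / ρ) : ℝ) : ℂ) - ξ 1‖)
          ‖((Real.pi * Real.log (Real.sqrt m ^ ρ) : ℝ) : ℂ) - ξ 2‖ :=
  measure_frame_den D hκ _ (4 * (Real.sqrt m ^ ρ + 1))
    (by have := Real.rpow_nonneg (Real.sqrt_nonneg m) ρ; linarith) (cden 1 1 m) (cden_pos 1 1 m)
    fun r kk _ => keyLogW m hm ρ hρ r kk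

/-- Measure for `√m ^ ρ`, `(q e ^ a) ^ ρ`, `π ρ`. -/
theorem measureFam (m : ℕ) (hm : 2 ≤ m) (ρ : ℝ) (hρ : ρ ≠ 0) (q a : ℚ) (hq : 0 < q) (ha : a ≠ 0)
    (D : ℕ) {κ : ℝ} (hκ : 10 < κ) :
    ∃ C : ℝ, ∀ H : ℝ, 2 ≤ H → ∀ ξ : Fin 3 → ℂ, (∀ i, HtLe D H (ξ i)) →
      Real.exp (-(C * Real.log H ^ κ)) ≤
        max (max ‖((Real.sqrt m ^ ρ : ℝ) : ℂ) - ξ 0‖
          ‖((((q : ℝ) * Real.exp a) ^ ρ : ℝ) : ℂ) - ξ 1‖)
          ‖((Real.pi * ρ : ℝ) : ℂ) - ξ 2‖ :=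
  measure_frame_den D hκ _ (2 * (Real.sqrt m ^ ρ + 1))
    (by have := Real.rpow_nonneg (Real.sqrt_nonneg m) ρ; linarith) (cden q a m) (cden_pos q a m)
    fun r kk _ => keyFam m hm ρ hρ q a hq ha r kk

end Pool.Agent.Lib.MP_93d8d2_nt
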